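import Pool.Agent.MP7725.Basic

/-!
# Words as alternating sequences of blocks
-/

namespace Pool.Agent.MP7725

/-- The word with successive blocks of the given lengths, the first one of letter `x`. -/
def alt : Bool → List ℕ → List Bool
  | _, [] => []
  | x, n :: ns => List.replicate n x ++ alt (!x) ns

lemma alt_append_zero (x : Bool) (ns : List ℕ) : alt x (ns ++ [0]) = alt x ns := by
  induction ns generalizing x with
  | nil => simp [alt]
  | cons n l ih => simp [alt, ih]

lemma exists_alt_cons (a : Bool) (l : List Bool) :
    ∃ ns, a :: l = alt a ns ∧ ns.length = numRuns (a :: l) := by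
  induction l generalizing a with
  | nil => exact ⟨[1], by simp [alt], rfl⟩
  | cons b l ih =>
    obtain ⟨ns, h1, h2⟩ := ih b
    by_cases hab : a = b
    · subst hab
      cases ns with
      | nil => simp [alt] at h1
      | cons n ns =>
        refine ⟨(n + 1) :: ns, ?_, ?_⟩
        · rw [h1]
          simp [alt, List.replicate_succ]
        · simpa [numRuns] using h2
    · refine ⟨1 :: ns, ?_, ?_⟩
      · have : (!a) = b := by cases a <;> cases b <;> simp_all
        simp [alt, this, ← h1]
      · simp [numRuns, hab, h2]

lemma exists_alt (W : List Bool) : ∃ x ns, W = alt x ns ∧ ns.length = numRuns W := by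
  cases W with
  | nil => exact ⟨true, [], rfl, rfl⟩
  | cons a l =>
    obtain ⟨ns, h1, h2⟩ := exists_alt_cons a l
    exact ⟨a, ns, h1, h2⟩

lemma exists_alt_length {W : List Bool} {k : ℕ} (h : numRuns W ≤ k) :
    ∃ x ns, W = alt x ns ∧ ns.length = k := by
  obtain ⟨x, ns, h1, h2⟩ := exists_alt W
  obtain ⟨d, hd⟩ := Nat.exists_eq_add_of_le h
  subst hd
  clear h
  induction d with
  | zero => exact ⟨x, ns, h1, h2⟩
  | succ d ih =>
    obtain ⟨x', ns', h3, h4⟩ := ih
    exact ⟨x', ns' ++ [0], by rw [alt_append_zero]; exact h3, by simp [h4]; omega⟩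

end Pool.Agent.MP7725
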