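import Mathlib

/-!
# Cutting binary words into shuffle squares: definitions and basic tools
-/

namespace Pool.Agent.MP7725

/-- The subword of `W` supported on the positions `i` with `s i = true`. -/
def subword (W : List Bool) (s : Fin W.length → Bool) : List Bool :=
  ((List.finRange W.length).filter (fun i => s i)).map W.get

/-- `W` is a shuffle square: its positions split into the supports of two equal subwords. -/
def IsShuffleSquare (W : List Bool) : Prop :=
  ∃ s : Fin W.length → Bool, subword W s = subword W (fun i => !(s i))

/-- `c` cuts suffice: `W` is a concatenation of `c + 1` consecutive blocks some reordering of which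
is a shuffle square. -/
def CutsSuffice (W : List Bool) (c : ℕ) : Prop :=
  ∃ B B' : List (List Bool), B.length = c + 1 ∧ B.flatten = W ∧ B'.Perm B ∧
    IsShuffleSquare B'.flatten

/-- The cutting distance `c(W)`: the least `c` such that `c` cuts suffice. -/
noncomputable def cutDistance (W : List Bool) : ℕ := sInf {c | CutsSuffice W c}

/-- A word is even if each of the two letters occurs in it an even number of times. -/
def EvenWord (W : List Bool) : Prop := ∀ a : Bool, Even (W.count a)

/-- The number of runs (maximal blocks of equal letters) of a word. -/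
def numRuns : List Bool → ℕ
  | [] => 0
  | [_] => 1
  | a :: b :: l => if a = b then numRuns (b :: l) else numRuns (b :: l) + 1

/-- `W` is an interleaving of `X` and `Y`. -/
inductive Shuf : List Bool → List Bool → List Bool → Prop
  | nil : Shuf [] [] []
  | left {X Y W : List Bool} (a : Bool) : Shuf X Y W → Shuf (a :: X) Y (a :: W)
  | right {X Y W : List Bool} (a : Bool) : Shuf X Y W → Shuf X (a :: Y) (a :: W)

lemma subword_cons (a : Bool) (W : List Bool) (s : Fin (a :: W).length → Bool) :
    subword (a :: W) s =
      if s 0 then a :: subword W (fun i => s i.succ) else subword W (fun i => s i.succ) := by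
  unfold subword
  simp only [List.length_cons, List.finRange_succ, List.filter_cons]
  split_ifs with h
  · rw [List.map_cons, List.filter_map, List.map_map]
    rfl
  · rw [List.filter_map, List.map_map]
    rfl

lemma Shuf.exists_sub {X Y W : List Bool} (h : Shuf X Y W) :
    ∃ s : Fin W.length → Bool, subword W s = X ∧ subword W (fun i => !(s i)) = Y := by
  induction h with
  | nil => exact ⟨fun _ => true, by simp [subword], by simp [subword]⟩
  | @left X Y W a _ ih =>
    obtain ⟨s, h1, h2⟩ := ih
    refine ⟨fun i => Fin.cases true s i, ?_, ?_⟩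
    · rw [subword_cons, if_pos (by rfl), ← h1]
      rfl
    · rw [subword_cons, if_neg (by simp), ← h2]
      rfl
  | @right X Y W a _ ih =>
    obtain ⟨s, h1, h2⟩ := ih
    refine ⟨fun i => Fin.cases false s i, ?_, ?_⟩
    · rw [subword_cons, if_neg (by simp), ← h1]
      rfl
    · rw [subword_cons, if_pos (by rfl), ← h2]
      rfl

lemma Shuf.append {X Y W X' Y' W' : List Bool} (h : Shuf X Y W) (h' : Shuf X' Y' W') :
    Shuf (X ++ X') (Y ++ Y') (W ++ W') := by
  induction h with
  | nil => simpa using h'
  | left a _ ih => exact Shuf.left a ih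
  | right a _ ih => exact Shuf.right a ih

lemma Shuf.all_left (W : List Bool) : Shuf W [] W := by
  induction W with
  | nil => exact Shuf.nil
  | cons a l ih => exact Shuf.left a ih

lemma Shuf.all_right (W : List Bool) : Shuf [] W W := by
  induction W with
  | nil => exact Shuf.nil
  | cons a l ih => exact Shuf.right a ih

/-- Reading `W` with queue `u` before and queue `v` after. -/
def Que (u W v : List Bool) : Prop := ∃ X Y, Shuf X Y W ∧ u ++ X = Y ++ v

lemma Que.trans {u v w W W' : List Bool} (h : Que u W v) (h' : Que v W' w) :
    Que u (W ++ W') w := by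
  obtain ⟨X, Y, h1, h2⟩ := h
  obtain ⟨X', Y', h3, h4⟩ := h'
  refine ⟨X ++ X', Y ++ Y', h1.append h3, ?_⟩
  rw [← List.append_assoc, h2, List.append_assoc, h4, List.append_assoc]

lemma Que.push (u : List Bool) : Que [] u u := ⟨u, [], Shuf.all_left u, by simp⟩

lemma Que.pop (u : List Bool) : Que u u [] := ⟨[], u, Shuf.all_right u, by simp⟩

lemma isShuffleSquare_of_que {W : List Bool} (h : Que [] W []) : IsShuffleSquare W := by
  obtain ⟨X, Y, h1, h2⟩ := h
  obtain ⟨s, h3, h4⟩ := h1.exists_sub
  refine ⟨s, ?_⟩
  rw [h3, h4]
  simpa using h2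

/-- Reading a word with as many letters `a` as the queue `a ^ h` turns the queue into a block of
the other letter. -/
lemma que_transfer (a : Bool) (P : List Bool) (h v : ℕ) (hh : P.count a = h)
    (hv : P.count (!a) = v) :
    Que (List.replicate h a) P (List.replicate v (!a)) := by
  refine ⟨List.replicate v (!a), List.replicate h a, ?_, rfl⟩
  subst hh hv
  induction P with
  | nil => exact Shuf.nil
  | cons b l ih =>
    rcases Bool.eq_or_eq_not b a with hb | hb
    · subst hb
      simpa [List.count_cons, List.replicate_succ] using Shuf.right b ih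
    · subst hb
      simpa [List.count_cons, List.replicate_succ] using Shuf.left (!a) ih

/-- An even power of a letter can be read with an empty queue. -/
lemma que_even (a : Bool) (e : ℕ) : Que [] (List.replicate (2 * e) a) [] := by
  have := (Que.push (List.replicate e a)).trans (Que.pop (List.replicate e a))
  rwa [List.replicate_append_replicate, ← two_mul] at this

/-- Three-block certificate. -/
lemma square_three (x : Bool) (M₁ M₂ : List Bool) (q s t e : ℕ) (h1 : M₁.count (!x) = q)
    (h2 : M₂.count (!x) = q) (h3 : M₁.count x = s) (h4 : M₂.count x = t) :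
    IsShuffleSquare (List.replicate s x ++ (M₁ ++ M₂) ++ List.replicate (t + 2 * e) x) := by
  apply isShuffleSquare_of_que
  have a1 := Que.push (List.replicate s x)
  have a2 := que_transfer x M₁ s q h3 h1
  have a3 := que_transfer (!x) M₂ q t h2 (by simpa using h4)
  rw [Bool.not_not] at a3
  have a4 := Que.pop (List.replicate t x)
  have a5 := ((a1.trans (a2.trans a3)).trans a4).trans (que_even x e)
  rw [List.append_assoc _ (List.replicate t x), List.replicate_append_replicate] at a5
  exact a5

/-- Four-block certificate. -/
lemma square_four (x : Bool) (P₁ P₂ P₃ : List Bool) (h h' v v' : ℕ)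
    (h1 : P₁.count x = h) (h2 : P₁.count (!x) = v) (h3 : P₂.count (!x) = v)
    (h4 : P₂.count x = h') (h5 : P₃.count x = h') (h6 : P₃.count (!x) = v') :
    IsShuffleSquare (List.replicate h x ++ (P₁ ++ (P₂ ++ (P₃ ++ List.replicate v' (!x))))) := by
  apply isShuffleSquare_of_que
  have a1 := Que.push (List.replicate h x)
  have a2 := que_transfer x P₁ h v h1 h2
  have a3 := que_transfer (!x) P₂ v h' h3 (by simpa using h4)
  rw [Bool.not_not] at a3
  have a4 := que_transfer x P₃ h' v' h5 h6
  have a5 := Que.pop (List.replicate v' (!x))
  exact a1.trans (a2.trans (a3.trans (a4.trans a5)))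

/-! ### Rotations and cuts -/

/-- Some rotation is a shuffle square. -/
def RotSquare (W : List Bool) : Prop := ∃ W', W ~r W' ∧ IsShuffleSquare W'

lemma RotSquare.congr {W W' : List Bool} (h : W ~r W') (h' : RotSquare W') : RotSquare W := by
  obtain ⟨V, h1, h2⟩ := h'
  exact ⟨V, h.trans h1, h2⟩

lemma RotSquare.cutsSuffice {W : List Bool} (h : RotSquare W) : CutsSuffice W 1 := by
  obtain ⟨V, ⟨n, hn⟩, h2⟩ := h
  rcases Nat.eq_zero_or_pos W.length with h0 | h0
  · have hW : W = [] := List.length_eq_zero_iff.mp h0
    subst hW
    simp at hn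
    subst hn
    exact ⟨[[], []], [[], []], rfl, rfl, List.Perm.refl _, h2⟩
  · have : n % W.length ≤ W.length := (Nat.mod_lt _ h0).le
    rw [← List.rotate_mod, List.rotate_eq_drop_append_take this] at hn
    refine ⟨[W.take (n % W.length), W.drop (n % W.length)],
      [W.drop (n % W.length), W.take (n % W.length)], rfl, by simp, List.Perm.swap _ _ _, ?_⟩
    simpa [hn] using h2

lemma cutDistance_spec {W : List Bool} {c : ℕ} (h : CutsSuffice W c) :
    CutsSuffice W (cutDistance W) ∧ cutDistance W ≤ c :=
  ⟨Nat.sInf_mem (s := {c | CutsSuffice W c}) ⟨c, h⟩, Nat.sInf_le h⟩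

lemma exists_split_count (x : Bool) (M : List Bool) (q : ℕ) (h : q ≤ M.count x) :
    ∃ M₁ M₂, M = M₁ ++ M₂ ∧ M₁.count x = q := by
  induction M generalizing q with
  | nil => exact ⟨[], [], rfl, by simp at h ⊢; omega⟩
  | cons a l ih =>
    rcases Nat.eq_zero_or_pos q with h0 | h0
    · subst h0
      exact ⟨[], a :: l, rfl, by simp⟩
    · by_cases hax : a = x
      · subst hax
        obtain ⟨M₁, M₂, h1, h2⟩ := ih (q - 1) (by simp at h; omega)
        exact ⟨a :: M₁, M₂, by simp [h1], by simp [h2]; omega⟩
      · obtain ⟨M₁, M₂, h1, h2⟩ := ih q (by simpa [List.count_cons, hax] using h)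
        exact ⟨a :: M₁, M₂, by simp [h1], by simp [h2, hax]⟩

/-- The majority case. -/
lemma rotSquare_of_majority (x : Bool) (z : ℕ) (M : List Bool)
    (he : EvenWord (List.replicate z x ++ M)) (hz : M.count x ≤ z) :
    RotSquare (List.replicate z x ++ M) := by
  have h1 := he x
  have h2 := he (!x)
  simp only [List.count_append, List.count_replicate_self] at h1
  rw [List.count_append, List.count_replicate, if_neg (by cases x <;> simp), zero_add] at h2
  obtain ⟨q, hq⟩ := h2
  obtain ⟨r, hr⟩ := h1
  obtain ⟨M₁, M₂, rfl, h3⟩ := exists_split_count (!x) M q (by omega)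
  rw [List.count_append] at hq hr hz
  set s := M₁.count x with hs
  set t := M₂.count x with ht
  have h4 := square_three x M₁ M₂ q s t (z - r) h3 (by omega) rfl rfl
  refine ⟨_, ?_, h4⟩
  have e1 : List.replicate z x = List.replicate (t + 2 * (z - r)) x ++ List.replicate s x := by
    rw [List.replicate_append_replicate]
    congr 1
    omega
  rw [e1, List.append_assoc, List.append_assoc]
  have e2 := List.isRotated_append (l := List.replicate (t + 2 * (z - r)) x)
    (l' := List.replicate s x ++ (M₁ ++ M₂))
  simpa [List.append_assoc] using e2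

end Pool.Agent.MP7725
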