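import Pool.Agent.MP7725.Good

/-!
# Chains of blocks

A chain is a sequence of consecutive blocks `P 0, P 1, …` such that reading the blocks one after
the other turns the queue `(letter 0) ^ (x 0)` (empty) into `(letter 1) ^ (x 1)`, and so on, where
the letters alternate.
-/

set_option autoImplicit false

namespace Pool.Agent.MP7725

/-- The letter of the queue before the block number `i`. -/
def ltr (i : ℕ) : Bool := decide (i % 2 = 0)

theorem ltr_succ (i : ℕ) : ltr (i + 1) = !ltr i := by
  unfold ltr
  rcases Nat.mod_two_eq_zero_or_one i with h | h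
  · have : (i + 1) % 2 = 1 := by omega
    simp [h, this]
  · have : (i + 1) % 2 = 0 := by omega
    simp [h, this]

theorem ltr_eq_of_mod {i j : ℕ} (h : i % 2 = j % 2) : ltr i = ltr j := by
  unfold ltr
  rw [h]

theorem ltr_eq_not {i j : ℕ} (h : (i + j) % 2 = 1) : ltr j = !ltr i := by
  rw [← ltr_succ]
  apply ltr_eq_of_mod
  omega

/-- Chains of length `N`: the block `P i` has `x i` letters `ltr i` and `x (i + 1)` letters
`ltr (i + 1)`, and `x 0 = 0`. -/
structure IsChain (N : ℕ) (P : ℕ → List Bool) (x : ℕ → ℕ) : Prop where
  zero : x 0 = 0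
  cur : ∀ i < N, (P i).count (ltr i) = x i
  nxt : ∀ i < N, (P i).count (!ltr i) = x (i + 1)

/-- The concatenation of the first blocks. -/
def pre (P : ℕ → List Bool) : ℕ → List Bool
  | 0 => []
  | i + 1 => pre P i ++ P i

theorem pre_congr {P P' : ℕ → List Bool} {N : ℕ} (h : ∀ i < N, P' i = P i) :
    pre P' N = pre P N := by
  induction N with
  | zero => rfl
  | succ N ih =>
    change pre P' N ++ P' N = pre P N ++ P N
    rw [ih fun i hi => h i (by omega), h N (by omega)]

theorem pre_le {P : ℕ → List Bool} {i j : ℕ} (h : i ≤ j) : pre P i <+: pre P j := by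
  induction j with
  | zero =>
    have : i = 0 := by omega
    subst this
    exact List.prefix_rfl
  | succ j ih =>
    rcases Nat.lt_or_ge j i with h1 | h1
    · have : i = j + 1 := by omega
      subst this
      exact List.prefix_rfl
    · exact (ih h1).trans (List.prefix_append _ _)

theorem IsChain.mono {N N' : ℕ} {P : ℕ → List Bool} {x : ℕ → ℕ} (h : IsChain N P x)
    (hN : N' ≤ N) : IsChain N' P x :=
  ⟨h.zero, fun i hi => h.cur i (by omega), fun i hi => h.nxt i (by omega)⟩

/-- Reading the blocks of a chain. -/
theorem IsChain.que {N : ℕ} {P : ℕ → List Bool} {x : ℕ → ℕ} (h : IsChain N P x) :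
    ∀ i, i ≤ N → Que [] (pre P i) (List.replicate (x i) (ltr i)) := by
  intro i
  induction i with
  | zero =>
    intro _
    rw [h.zero]
    exact ⟨[], [], Shuf.nil, rfl⟩
  | succ i ih =>
    intro hi
    have h1 := ih (by omega)
    have h2 := que_transfer (ltr i) (P i) (x i) (x (i + 1)) (h.cur i (by omega))
      (h.nxt i (by omega))
    rw [ltr_succ]
    exact h1.trans h2

/-- Reading the reversed blocks in the opposite order. -/
theorem IsChain.que_rev {N : ℕ} {P : ℕ → List Bool} {x : ℕ → ℕ} (h : IsChain N P x) :
    ∀ i, i ≤ N → Que (List.replicate (x i) (ltr i)) (pre P i).reverse [] := by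
  intro i
  induction i with
  | zero =>
    intro _
    rw [h.zero]
    exact ⟨[], [], Shuf.nil, rfl⟩
  | succ i ih =>
    intro hi
    have h1 := ih (by omega)
    have h2 := que_transfer (ltr (i + 1)) (P i).reverse (x (i + 1)) (x i)
      (by rw [List.count_reverse, ltr_succ]; exact h.nxt i (by omega))
      (by rw [List.count_reverse, ltr_succ, Bool.not_not]; exact h.cur i (by omega))
    rw [ltr_succ, Bool.not_not] at h2
    change Que _ (pre P i ++ P i).reverse []
    rw [List.reverse_append, ltr_succ]
    exact h2.trans h1

theorem IsChain.le_count {N : ℕ} {P : ℕ → List Bool} {x : ℕ → ℕ} (h : IsChain N P x) :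
    ∀ i, i ≤ N → x i ≤ (pre P i).count (ltr i) := by
  intro i
  induction i with
  | zero =>
    intro _
    rw [h.zero]
    exact Nat.zero_le _
  | succ i _ =>
    intro hi
    change _ ≤ (pre P i ++ P i).count _
    rw [List.count_append, ltr_succ, h.nxt i (by omega)]
    omega

/-- Prolonging a chain by one block. -/
theorem IsChain.snoc {I : ℕ} {P : ℕ → List Bool} {x : ℕ → ℕ} (h : IsChain I P x)
    (R : List Bool) (hR : R.count (ltr I) = x I) :
    ∃ (P' : ℕ → List Bool) (x' : ℕ → ℕ), IsChain (I + 1) P' x' ∧ (∀ i < I, P' i = P i) ∧
      P' I = R ∧ (∀ i ≤ I, x' i = x i) ∧ x' (I + 1) = R.count (!ltr I) := by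
  refine ⟨Function.update P I R, Function.update x (I + 1) (R.count (!ltr I)), ⟨?_, ?_, ?_⟩,
    ?_, ?_, ?_, ?_⟩
  · rw [Function.update_of_ne (by omega)]
    exact h.zero
  · intro i hi
    rw [Function.update_of_ne (by omega : i ≠ I + 1)]
    rcases Nat.lt_or_ge i I with h1 | h1
    · rw [Function.update_of_ne (by omega)]
      exact h.cur i h1
    · have : i = I := by omega
      subst this
      rw [Function.update_self]
      exact hR
  · intro i hi
    rcases Nat.lt_or_ge i I with h1 | h1
    · rw [Function.update_of_ne (by omega), Function.update_of_ne (by omega : i + 1 ≠ I + 1)]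
      exact h.nxt i h1
    · have : i = I := by omega
      subst this
      rw [Function.update_self, Function.update_self]
  · intro i hi
    rw [Function.update_of_ne (by omega)]
  · rw [Function.update_self]
  · intro i hi
    rw [Function.update_of_ne (by omega)]
  · rw [Function.update_self]

/-- Prolonging a chain over a word: the last block need not be complete. -/
theorem IsChain.ext (n : ℕ) : ∀ (R : List Bool), R.length ≤ n → ∀ (I : ℕ) (P : ℕ → List Bool)
    (x : ℕ → ℕ), IsChain I P x →
    ∃ (N : ℕ) (P' : ℕ → List Bool) (x' : ℕ → ℕ), I ≤ N ∧ IsChain N P' x' ∧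
      (∀ i < I, P' i = P i) ∧ (∀ i ≤ I, x' i = x i) ∧ pre P' (N + 1) = pre P I ++ R ∧
      (P' N).count (ltr N) ≤ x' N := by
  induction n with
  | zero =>
    intro R hR I P x h
    have : R = [] := List.length_eq_zero_iff.mp (by omega)
    subst this
    refine ⟨I, Function.update P I [], x, le_rfl, ⟨h.zero, ?_, ?_⟩, ?_, fun _ _ => rfl, ?_, ?_⟩
    · intro i hi
      rw [Function.update_of_ne (by omega)]
      exact h.cur i hi
    · intro i hi
      rw [Function.update_of_ne (by omega)]
      exact h.nxt i hi
    · intro i hi
      rw [Function.update_of_ne (by omega)]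
    · change pre (Function.update P I []) I ++ Function.update P I [] I = _
      rw [Function.update_self, pre_congr (P := P)]
      intro i hi
      rw [Function.update_of_ne (by omega)]
    · rw [Function.update_self]
      simp
  | succ n ih =>
    intro R hR I P x h
    rcases Nat.lt_or_ge (x I) (R.count (ltr I)) with h1 | h1
    · -- the next block is complete
      rcases Nat.eq_zero_or_pos (x I) with h0 | h0
      · -- the queue is empty
        match R, hR, h1 with
        | [], _, h1 => simp at h1
        | b :: R₂, hR, h1 =>
          simp only [List.length_cons] at hR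
          by_cases hb : b = ltr I
          · -- an empty block, then the block `[b]`
            obtain ⟨P₁, x₁, c1, c2, c3, c4, c5⟩ := h.snoc [] (by rw [h0]; simp)
            simp only [List.count_nil] at c5
            obtain ⟨P₂, x₂, d1, d2, d3, d4, d5⟩ := c1.snoc [b] (by
              rw [c5, ltr_succ, hb]; simp)
            obtain ⟨N, P', x', e1, e2, e3, e4, e5, e6⟩ := ih R₂ (by omega) _ P₂ x₂ d1
            refine ⟨N, P', x', by omega, e2, ?_, ?_, ?_, e6⟩
            · intro i hi
              rw [e3 i (by omega), d2 i (by omega), c2 i hi]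
            · intro i hi
              rw [e4 i (by omega), d4 i (by omega), c4 i hi]
            · rw [e5]
              change (pre P₂ I ++ P₂ I) ++ P₂ (I + 1) ++ R₂ = _
              rw [d3, d2 I (by omega), c3, pre_congr (P := P₁) (P' := P₂)
                (fun i hi => d2 i (by omega)), pre_congr (P := P) (P' := P₁) c2]
              simp
          · -- the block `[b]`
            have hb' : b = !ltr I := by
              cases b <;> cases hl : ltr I <;> simp_all
            obtain ⟨P₁, x₁, c1, c2, c3, c4, c5⟩ := h.snoc [b] (by rw [h0, hb']; simp)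
            obtain ⟨N, P', x', e1, e2, e3, e4, e5, e6⟩ := ih R₂ (by omega) _ P₁ x₁ c1
            refine ⟨N, P', x', by omega, e2, ?_, ?_, ?_, e6⟩
            · intro i hi
              rw [e3 i (by omega), c2 i hi]
            · intro i hi
              rw [e4 i (by omega), c4 i hi]
            · rw [e5]
              change (pre P₁ I ++ P₁ I) ++ R₂ = _
              rw [c3, pre_congr (P := P) (P' := P₁) c2]
              simp
      · obtain ⟨R₁, R₂, rfl, h2⟩ := exists_split_count (ltr I) R (x I) h1.le
        have h3 : R₁ ≠ [] := by
          intro h4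
          rw [h4] at h2
          simp at h2
          omega
        have h4 : 0 < R₁.length := List.length_pos_iff.mpr h3
        rw [List.length_append] at hR
        obtain ⟨P₁, x₁, c1, c2, c3, c4, c5⟩ := h.snoc R₁ h2
        obtain ⟨N, P', x', e1, e2, e3, e4, e5, e6⟩ := ih R₂ (by omega) _ P₁ x₁ c1
        refine ⟨N, P', x', by omega, e2, ?_, ?_, ?_, e6⟩
        · intro i hi
          rw [e3 i (by omega), c2 i hi]
        · intro i hi
          rw [e4 i (by omega), c4 i hi]
        · rw [e5]
          change (pre P₁ I ++ P₁ I) ++ R₂ = _
          rw [c3, pre_congr (P := P) (P' := P₁) c2, List.append_assoc]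
    · -- the last block
      refine ⟨I, Function.update P I R, x, le_rfl, ⟨h.zero, ?_, ?_⟩, ?_, fun _ _ => rfl, ?_, ?_⟩
      · intro i hi
        rw [Function.update_of_ne (by omega)]
        exact h.cur i hi
      · intro i hi
        rw [Function.update_of_ne (by omega)]
        exact h.nxt i hi
      · intro i hi
        rw [Function.update_of_ne (by omega)]
      · change pre (Function.update P I R) I ++ Function.update P I R I = _
        rw [Function.update_self, pre_congr (P := P)]
        intro i hi
        rw [Function.update_of_ne (by omega)]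
      · rw [Function.update_self]
        exact h1

/-! ### The crossing lemma -/

/-- A block `P` and a reversed block `Q` which are too long for each other have a beginning each
with given numbers of letters altogether. -/
theorem quad (a : Bool) (n : ℕ) : ∀ (P Q : List Bool) (h l : ℕ), P.length + Q.length ≤ n →
    P.count a ≤ h → Q.count (!a) ≤ l → h ≤ Q.count a → l ≤ P.count (!a) →
    ∃ P' Q' : List Bool, P' <+: P ∧ Q' <+: Q ∧ P'.count a + Q'.count a = h ∧
      P'.count (!a) + Q'.count (!a) = l := by
  -- we remove letters from the beginning of `P` and from the end of `Q`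
  induction n with
  | zero =>
    intro P Q h l hn h1 h2 h3 h4
    have hP : P = [] := List.length_eq_zero_iff.mp (by omega)
    have hQ : Q = [] := List.length_eq_zero_iff.mp (by omega)
    subst hP hQ
    simp at h3 h4
    exact ⟨[], [], List.prefix_rfl, List.prefix_rfl, by simp; omega, by simp; omega⟩
  | succ n ih =>
    intro P Q h l hn h1 h2 h3 h4
    rcases Nat.lt_or_ge h (Q.count a) with h5 | h5
    · -- remove the last letter of `Q`
      rcases List.eq_nil_or_concat Q with rfl | ⟨Q₁, b, rfl⟩
      · simp at h5
      · have e1 : ∀ c : Bool, (Q₁.concat b).count c = Q₁.count c + [b].count c := by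
          intro c
          rw [List.concat_eq_append, List.count_append]
        have e2 : [b].count a ≤ 1 := by
          have := List.count_le_length (a := a) (l := [b])
          simpa using this
        rw [e1] at h2 h3 h5
        have e3 : (Q₁.concat b).length = Q₁.length + 1 := by simp
        rw [e3] at hn
        obtain ⟨P', Q', f1, f2, f3, f4⟩ := ih P Q₁ h l (by omega) h1 (by omega) (by omega) h4
        exact ⟨P', Q', f1, f2.trans (by rw [List.concat_eq_append]; exact List.prefix_append _ _),
          f3, f4⟩
    · have h6 : Q.count a = h := by omega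
      rcases Nat.lt_or_ge (Q.count (!a)) l with h7 | h7
      · match P, hn, h1, h4 with
        | [], _, _, h4 => simp at h4; omega
        | b :: P₁, hn, h1, h4 =>
          simp only [List.length_cons] at hn
          by_cases hb : b = a
          · subst hb
            have e1 : (b :: P₁).count b = P₁.count b + 1 := by simp
            have e2 : (b :: P₁).count (!b) = P₁.count (!b) := by simp
            rw [e1] at h1
            rw [e2] at h4
            obtain ⟨P', Q', f1, f2, f3, f4⟩ := ih P₁ Q (h - 1) l (by omega) (by omega) h2
              (by omega) h4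
            exact ⟨b :: P', Q', List.cons_prefix_cons.mpr ⟨rfl, f1⟩, f2,
              by simp only [List.count_cons_self]; omega, by simp; omega⟩
          · have hb' : b = !a := by
              cases a <;> cases b <;> simp_all
            subst hb'
            have e1 : ((!a) :: P₁).count a = P₁.count a := by simp
            have e2 : ((!a) :: P₁).count (!a) = P₁.count (!a) + 1 := by simp
            rw [e1] at h1
            rw [e2] at h4
            obtain ⟨P', Q', f1, f2, f3, f4⟩ := ih P₁ Q h (l - 1) (by omega) h1 (by omega)
              h3 (by omega)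
            exact ⟨(!a) :: P', Q', List.cons_prefix_cons.mpr ⟨rfl, f1⟩, f2,
              by simp; omega, by simp only [List.count_cons_self]; omega⟩
      · exact ⟨[], Q, List.nil_prefix, List.prefix_rfl, by simp; omega, by simp; omega⟩

/-- Two chains cross in their blocks number `i` and `j`. -/
def Cross (P : ℕ → List Bool) (x : ℕ → ℕ) (Q : ℕ → List Bool) (y : ℕ → ℕ) (i j : ℕ) : Prop :=
  (i + j) % 2 = 1 ∧ ∃ P' Q' : List Bool, P' <+: P i ∧ Q' <+: Q j ∧
    P'.count (ltr i) + Q'.count (ltr i) = x i ∧ P'.count (ltr j) + Q'.count (ltr j) = y j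

/-- A crossing gives a shuffle square. -/
theorem Cross.que {N M : ℕ} {P : ℕ → List Bool} {x : ℕ → ℕ} {Q : ℕ → List Bool} {y : ℕ → ℕ}
    (hP : IsChain N P x) (hQ : IsChain M Q y) {i j : ℕ} (hi : i ≤ N) (hj : j ≤ M)
    {P' Q' : List Bool} (hij : (i + j) % 2 = 1)
    (h1 : P'.count (ltr i) + Q'.count (ltr i) = x i)
    (h2 : P'.count (ltr j) + Q'.count (ltr j) = y j) :
    Que [] ((pre P i ++ P') ++ (pre Q j ++ Q').reverse) [] := by
  have a1 := hP.que i hi
  have a2 := hQ.que_rev j hj
  have e1 : ltr j = !ltr i := ltr_eq_not hij
  have a3 := que_transfer (ltr i) (P' ++ Q'.reverse) (x i) (y j)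
    (by rw [List.count_append, List.count_reverse]; exact h1)
    (by rw [List.count_append, List.count_reverse, ← e1]; exact h2)
  rw [← e1] at a3
  have a4 := (a1.trans a3).trans a2
  have e2 : (pre P i ++ P') ++ (pre Q j ++ Q').reverse
      = (pre P i ++ (P' ++ Q'.reverse)) ++ (pre Q j).reverse := by
    simp [List.append_assoc]
  rw [e2]
  exact a4

/-- If the chain `P` starts inside the chain `Q` and never crosses it, then it is dominated
by it. -/
theorem one_side {N M : ℕ} {P : ℕ → List Bool} {x : ℕ → ℕ} {Q : ℕ → List Bool} {y : ℕ → ℕ}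
    (hP : IsChain N P x) (hPl : (P N).count (ltr N) ≤ x N) (hQ : IsChain M Q y) {I J : ℕ}
    (hI : I ≤ N) (hJ : J ≤ M) (hIJ : I % 2 = J % 2) (hxy : x I < y J)
    (hno : ∀ i j, I ≤ i → i ≤ N → j < J → ¬ Cross P x Q y i j) (e : Bool) :
    (pre P (N + 1)).count e < (pre P I).count e + (pre Q J).count e := by
  -- the induction
  have key : ∀ r, I + r ≤ N → r < J ∧ x (I + r) < y (J - r) ∧
      (pre P (I + r)).count e + (pre Q (J - r)).count e
        ≤ (pre P I).count e + (pre Q J).count e := by
    intro r
    induction r with
    | zero =>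
      intro _
      refine ⟨?_, by simpa using hxy, by simp⟩
      rcases Nat.eq_zero_or_pos J with h | h
      · subst h
        rw [hQ.zero] at hxy
        omega
      · exact h
    | succ r ih =>
      intro hr
      obtain ⟨h1, h2, h3⟩ := ih (by omega)
      -- the crossing of the blocks `I + r` and `J - r - 1`
      have hpar : (I + r + (J - r - 1)) % 2 = 1 := by omega
      have e1 : ltr (J - r - 1) = !ltr (I + r) := ltr_eq_not hpar
      have e2 : ltr (J - r - 1 + 1) = ltr (I + r) := by rw [ltr_succ, e1, Bool.not_not]
      have q1 := hQ.cur (J - r - 1) (by omega)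
      have q2 := hQ.nxt (J - r - 1) (by omega)
      rw [e1] at q1
      rw [e1, Bool.not_not] at q2
      have e3 : J - r - 1 + 1 = J - r := by omega
      rw [e3] at q2
      have p1 := hP.cur (I + r) (by omega)
      have p2 := hP.nxt (I + r) (by omega)
      have h4 : x (I + r + 1) < y (J - r - 1) := by
        by_contra h5
        apply hno (I + r) (J - r - 1) (by omega) (by omega) (by omega)
        obtain ⟨P', Q', f1, f2, f3, f4⟩ := quad (ltr (I + r)) _ (P (I + r)) (Q (J - r - 1))
          (x (I + r)) (y (J - r - 1)) le_rfl p1.le q1.le (by omega) (by omega)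
        refine ⟨hpar, P', Q', f1, f2, f3, ?_⟩
        rw [e1]
        exact f4
      have h5 : J - (r + 1) = J - r - 1 := by omega
      refine ⟨?_, ?_, ?_⟩
      · by_contra h6
        have h7 : J - r - 1 = 0 := by omega
        rw [h7, hQ.zero] at h4
        omega
      · rw [h5]
        exact h4
      · rw [h5]
        have h6 : pre P (I + (r + 1)) = pre P (I + r) ++ P (I + r) := rfl
        have h7 : pre Q (J - r) = pre Q (J - r - 1) ++ Q (J - r - 1) := by
          conv_lhs => rw [← e3]
          rfl
        rw [h7, List.count_append] at h3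
        rw [h6, List.count_append]
        have h8 : (P (I + r)).count e ≤ (Q (J - r - 1)).count e := by
          rcases Bool.eq_or_eq_not e (ltr (I + r)) with h9 | h9
          · rw [h9, p1, q2]
            omega
          · rw [h9, p2, q1]
            omega
        omega
  obtain ⟨h1, h2, h3⟩ := key (N - I) (by omega)
  have hN : I + (N - I) = N := by omega
  rw [hN] at h2 h3
  set r := N - I with hr
  have hpar : (N + (J - r - 1)) % 2 = 1 := by omega
  have e1 : ltr (J - r - 1) = !ltr N := ltr_eq_not hpar
  have q1 := hQ.cur (J - r - 1) (by omega)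
  have q2 := hQ.nxt (J - r - 1) (by omega)
  rw [e1] at q1
  rw [e1, Bool.not_not] at q2
  have e3 : J - r - 1 + 1 = J - r := by omega
  rw [e3] at q2
  have h4 : (P N).count (!ltr N) < y (J - r - 1) := by
    by_contra h5
    apply hno N (J - r - 1) (by omega) (by omega) (by omega)
    obtain ⟨P', Q', f1, f2, f3, f4⟩ := quad (ltr N) _ (P N) (Q (J - r - 1))
      (x N) (y (J - r - 1)) le_rfl hPl q1.le (by omega) (by omega)
    refine ⟨hpar, P', Q', f1, f2, f3, ?_⟩
    rw [e1]
    exact f4
  have h7 : pre Q (J - r) = pre Q (J - r - 1) ++ Q (J - r - 1) := by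
    conv_lhs => rw [← e3]
    rfl
  rw [h7, List.count_append] at h3
  change (pre P N ++ P N).count e < _
  rw [List.count_append]
  have h8 : (P N).count e < (Q (J - r - 1)).count e := by
    rcases Bool.eq_or_eq_not e (ltr N) with h9 | h9
    · rw [h9, q2]
      omega
    · rw [h9, q1]
      omega
  omega

end Pool.Agent.MP7725
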