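import Pool.Agent.MP7725.Basic

/-!
# Collections of words and numbers of cuts
-/

set_option autoImplicit false

open List

namespace Pool.Agent.MP7725

/-! ### Collections of words and numbers of cuts -/

/-- With at most `t` further cuts of the words of the collection `Ms` one gets a collection of
blocks which can be arranged to a shuffle square. -/
def Good (t : ℕ) (Ms : List (List Bool)) : Prop :=
  ∃ Cs : List (List (List Bool)), Cs.map List.flatten = Ms ∧
    Cs.flatten.length ≤ Ms.length + t ∧ ∃ B' : List (List Bool), B'.Perm Cs.flatten ∧
      Que [] B'.flatten []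

theorem Good.mono {t t' : ℕ} {Ms : List (List Bool)} (h : Good t Ms) (ht : t ≤ t') :
    Good t' Ms := by
  obtain ⟨Cs, h1, h2, h3⟩ := h
  exact ⟨Cs, h1, by omega, h3⟩

theorem flatten_map_single (Ms : List (List Bool)) : (Ms.map (fun w => [w])).flatten = Ms := by
  induction Ms with
  | nil => rfl
  | cons a l ih => simp [ih]

theorem good_of_que {Ms : List (List Bool)} (h : Que [] Ms.flatten []) : Good 0 Ms := by
  refine ⟨Ms.map (fun w => [w]), ?_, ?_, Ms, ?_, h⟩
  · rw [List.map_map]
    conv_rhs => rw [← List.map_id Ms]
    apply List.map_congr_left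
    intro w _
    simp
  · rw [flatten_map_single]
    omega
  · rw [flatten_map_single]

/-- Cutting a word. -/
theorem Good.split {t : ℕ} {u v : List Bool} {L : List (List Bool)}
    (h : Good t (u :: v :: L)) : Good (t + 1) ((u ++ v) :: L) := by
  obtain ⟨Cs, h1, h2, B', h3, h4⟩ := h
  match Cs, h1 with
  | c₁ :: c₂ :: Cs', h1 =>
    simp only [List.map_cons, List.cons.injEq] at h1
    obtain ⟨h5, h6, h7⟩ := h1
    refine ⟨(c₁ ++ c₂) :: Cs', ?_, ?_, B', ?_, h4⟩
    · simp [h5, h6, h7]
    · simp only [List.flatten_cons, List.length_append, List.length_cons] at h2 ⊢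
      omega
    · simpa [List.append_assoc] using h3

/-- Gluing two words. -/
theorem exists_split_flatten (c : List (List Bool)) (u v : List Bool) (h : c.flatten = u ++ v) :
    (∃ c₁ c₂, c = c₁ ++ c₂ ∧ c₁.flatten = u ∧ c₂.flatten = v) ∨
    ∃ c₁ b₁ b₂ c₂, c = c₁ ++ (b₁ ++ b₂) :: c₂ ∧ c₁.flatten ++ b₁ = u ∧ b₂ ++ c₂.flatten = v := by
  induction c generalizing u with
  | nil =>
    left
    simp only [List.flatten_nil] at h
    obtain ⟨rfl, rfl⟩ := List.append_eq_nil_iff.mp h.symm
    exact ⟨[], [], rfl, rfl, rfl⟩
  | cons b c ih =>
    rw [List.flatten_cons] at h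
    rcases List.append_eq_append_iff.mp h with ⟨w, h1, h2⟩ | ⟨w, h1, h2⟩
    · -- `u = b ++ w`, `c.flatten = w ++ v`
      rcases ih w h2 with ⟨c₁, c₂, h3, h4, h5⟩ | ⟨c₁, b₁, b₂, c₂, h3, h4, h5⟩
      · left
        exact ⟨b :: c₁, c₂, by simp [h3], by simp [h4, h1], h5⟩
      · right
        refine ⟨b :: c₁, b₁, b₂, c₂, by simp [h3], ?_, h5⟩
        rw [List.flatten_cons, List.append_assoc, h4, h1]
    · -- `b = u ++ w`, `v = w ++ c.flatten`
      right
      exact ⟨[], u, w, c, by simp [h1], by simp, h2.symm⟩

theorem Good.merge {t : ℕ} {u v : List Bool} {L : List (List Bool)}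
    (h : Good t ((u ++ v) :: L)) : Good t (u :: v :: L) := by
  obtain ⟨Cs, h1, h2, B', h3, h4⟩ := h
  match Cs, h1 with
  | c :: Cs', h1 =>
    simp only [List.map_cons, List.cons.injEq] at h1
    obtain ⟨h5, h6⟩ := h1
    rcases exists_split_flatten c u v h5 with ⟨c₁, c₂, h7, h8, h9⟩ |
      ⟨c₁, b₁, b₂, c₂, h7, h8, h9⟩
    · refine ⟨c₁ :: c₂ :: Cs', ?_, ?_, B', ?_, h4⟩
      · simp [h8, h9, h6]
      · subst h7
        simp only [List.flatten_cons, List.length_append, List.length_cons] at h2 ⊢
        omega
      · subst h7
        simpa [List.append_assoc] using h3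
    · subst h7
      have h10 : (b₁ ++ b₂) ∈ B' := h3.mem_iff.mpr (by simp)
      obtain ⟨X, Y, rfl⟩ := List.append_of_mem h10
      refine ⟨(c₁ ++ [b₁]) :: (b₂ :: c₂) :: Cs', ?_, ?_, X ++ b₁ :: b₂ :: Y, ?_, ?_⟩
      · simp [h8, h9, h6]
      · simp only [List.flatten_cons, List.length_append, List.length_cons, List.length_nil]
          at h2 ⊢
        omega
      · have h11 : (X ++ Y).Perm (c₁ ++ c₂ ++ Cs'.flatten) := by
          have h12 : ((b₁ ++ b₂) :: (X ++ Y)).Perm
              ((b₁ ++ b₂) :: (c₁ ++ c₂ ++ Cs'.flatten)) := by
            refine List.perm_middle.symm.trans (h3.trans ?_)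
            rw [List.flatten_cons]
            simp only [List.append_assoc, List.cons_append]
            exact List.perm_middle
          exact h12.cons_inv
        have h13 : (X ++ b₁ :: b₂ :: Y).Perm (b₁ :: b₂ :: (X ++ Y)) :=
          List.perm_middle.trans (List.Perm.cons _ List.perm_middle)
        have h14 : ((c₁ ++ [b₁]) :: (b₂ :: c₂) :: Cs').flatten.Perm
            (b₁ :: b₂ :: (c₁ ++ c₂ ++ Cs'.flatten)) := by
          simp only [List.flatten_cons, List.append_assoc, List.cons_append, List.nil_append]
          exact List.perm_middle.trans (List.Perm.cons _ List.perm_middle)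
        exact h13.trans ((List.Perm.cons _ (List.Perm.cons _ h11)).trans h14.symm)
      · simpa [List.append_assoc] using h4

theorem Good.perm {t : ℕ} {L L' : List (List Bool)} (h : Good t L) (hp : L.Perm L') :
    Good t L' := by
  obtain ⟨Cs, h1, h2, B', h3, h4⟩ := h
  have h5 : ∃ Cs' : List (List (List Bool)), Cs'.map List.flatten = L' ∧ Cs.Perm Cs' := by
    subst h1
    clear h2 h3
    generalize hM : Cs.map List.flatten = M at hp
    induction hp generalizing Cs with
    | nil =>
      exact ⟨[], rfl, by rw [List.map_eq_nil_iff.mp hM]⟩
    | cons x _ ih =>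
      match Cs, hM with
      | c :: Cs', hM =>
        simp only [List.map_cons, List.cons.injEq] at hM
        obtain ⟨Ds, h6, h7⟩ := ih Cs' hM.2
        exact ⟨c :: Ds, by simp [hM.1, h6], h7.cons _⟩
    | swap x y l =>
      match Cs, hM with
      | c₁ :: c₂ :: Cs', hM =>
        simp only [List.map_cons, List.cons.injEq] at hM
        exact ⟨c₂ :: c₁ :: Cs', by simp [hM.1, hM.2.1, hM.2.2], List.Perm.swap _ _ _⟩
    | trans _ _ ih1 ih2 =>
      obtain ⟨Ds, h6, h7⟩ := ih1 Cs hM
      obtain ⟨Es, h8, h9⟩ := ih2 Ds h6
      exact ⟨Es, h8, h7.trans h9⟩
  obtain ⟨Cs', h6, h7⟩ := h5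
  refine ⟨Cs', h6, ?_, B', h3.trans h7.flatten, h4⟩
  rw [← h7.flatten.length_eq, ← hp.length_eq]
  exact h2

theorem Good.cutsSuffice {t : ℕ} {W : List Bool} (h : Good t [W]) : CutsSuffice W t := by
  obtain ⟨Cs, h1, h2, B', h3, h4⟩ := h
  match Cs, h1 with
  | [c], h1 =>
    simp only [List.map_cons, List.map_nil, List.cons.injEq, and_true] at h1
    simp only [List.flatten_cons, List.flatten_nil, List.append_nil, List.length_cons,
      List.length_nil] at h2 h3
    refine ⟨c ++ List.replicate (t + 1 - c.length) [], B' ++ List.replicate (t + 1 - c.length) [],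
      ?_, ?_, h3.append_right _, ?_⟩
    · simp
      omega
    · simp [h1]
    · apply isShuffleSquare_of_que
      simpa using h4

/-! ### Tools -/

/-- Taking one letter out of a word. -/
theorem Good.extract {t : ℕ} (x : Bool) (A : List Bool) (hA : 1 ≤ A.count x) :
    ∃ A' : List Bool, A'.count x + 1 = A.count x ∧ A'.count (!x) = A.count (!x) ∧
      ∀ L, Good t (A' :: [x] :: L) → Good (t + 2) (A :: L) := by
  have hx : x ∈ A := List.count_pos_iff.mp hA
  obtain ⟨U, V, rfl⟩ := List.append_of_mem hx
  refine ⟨U ++ V, by simp; omega, by simp, ?_⟩
  intro L h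
  have h1 : Good t (U :: [x] :: V :: L) :=
    h.merge.perm (List.Perm.cons _ (List.Perm.swap _ _ _))
  have h2 : Good (t + 1) (U :: ([x] ++ V) :: L) := by
    have h3 : Good t ([x] :: V :: U :: L) :=
      h1.perm ((List.Perm.swap _ _ _).trans (List.Perm.cons _ (List.Perm.swap _ _ _)))
    exact h3.split.perm (List.Perm.swap _ _ _)
  exact h2.split

/-- Taking `d` letters `x` out of a word, and adding them to a power of `x`. -/
theorem Good.extracts {t : ℕ} (x : Bool) (d : ℕ) (A : List Bool) (hA : d ≤ A.count x) :
    ∃ A' : List Bool, A'.count x + d = A.count x ∧ A'.count (!x) = A.count (!x) ∧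
      ∀ r L, Good t (A' :: List.replicate (r + d) x :: L) →
        Good (t + 2 * d) (A :: List.replicate r x :: L) := by
  induction d generalizing t with
  | zero => exact ⟨A, by simp, rfl, fun r L h => by simpa using h⟩
  | succ d ih =>
    obtain ⟨A₁, h1, h2, h3⟩ := ih (t := t + 2) (by omega)
    obtain ⟨A₂, h4, h5, h6⟩ := Good.extract (t := t) x A₁ (by omega)
    refine ⟨A₂, by omega, by rw [h5, h2], ?_⟩
    intro r L h
    have h7 : Good t (([x] ++ List.replicate (r + d) x) :: A₂ :: L) := by
      have h8 : List.replicate (r + (d + 1)) x = [x] ++ List.replicate (r + d) x := by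
        rw [← add_assoc, List.replicate_succ]
        rfl
      rw [← h8]
      exact h.perm (List.Perm.swap _ _ _)
    have h9 : Good t (A₂ :: [x] :: List.replicate (r + d) x :: L) :=
      h7.merge.perm ((List.Perm.cons _ (List.Perm.swap _ _ _)).trans (List.Perm.swap _ _ _))
    have h10 := h3 r L (h6 _ h9)
    exact h10.mono (by omega)

/-- Cutting a word into letters. -/
theorem Good.explode {t : ℕ} (A : List Bool) (r q : ℕ) (L : List (List Bool))
    (h : Good t (List.replicate (r + A.count true) true ::
      List.replicate (q + A.count false) false :: L)) :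
    Good (t + A.length) (List.replicate r true :: List.replicate q false :: A :: L) := by
  induction A generalizing r q t with
  | nil =>
    have h1 : Good t ([] ++ List.replicate r true :: List.replicate q false :: L) := by
      simpa using h
    have h2 : Good t (([] ++ List.replicate r true) :: List.replicate q false :: L) := by
      simpa using h
    have h3 := h2.merge
    refine (h3.perm ?_).mono (by simp)
    exact (List.Perm.swap _ _ _).trans (List.Perm.cons _ (List.Perm.swap _ _ _))
  | cons b A ih =>
    have key : Good (t + A.length) (List.replicate r true :: List.replicate q false :: [b] ::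
        A :: L) := by
      cases b with
      | true =>
        have h1 : Good t (List.replicate ((r + 1) + A.count true) true ::
            List.replicate (q + A.count false) false :: L) := by
          have h2 : (r + 1) + A.count true = r + (true :: A).count true := by
            simp
            omega
          have h3 : (true :: A).count false = A.count false := by simp
          rw [h2, ← h3]
          exact h
        have h4 := ih (r + 1) q h1
        have h5 : List.replicate (r + 1) true = [true] ++ List.replicate r true := by
          rw [List.replicate_succ]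
          rfl
        rw [h5] at h4
        refine h4.merge.perm ?_
        have h6 : ([true] :: List.replicate r true :: List.replicate q false :: A :: L).Perm
            (List.replicate r true :: [true] :: List.replicate q false :: A :: L) :=
          List.Perm.swap _ _ _
        exact h6.trans (List.Perm.cons _ (List.Perm.swap _ _ _))
      | false =>
        have h1 : Good t (List.replicate (r + A.count true) true ::
            List.replicate ((q + 1) + A.count false) false :: L) := by
          have h2 : (q + 1) + A.count false = q + (false :: A).count false := by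
            simp
            omega
          have h3 : (false :: A).count true = A.count true := by simp
          rw [h2, ← h3]
          exact h
        have h4 := ih r (q + 1) h1
        have h5 : List.replicate (q + 1) false = [false] ++ List.replicate q false := by
          rw [List.replicate_succ]
          rfl
        rw [h5] at h4
        have h6 : Good (t + A.length) (([false] ++ List.replicate q false) ::
            List.replicate r true :: A :: L) := h4.perm (List.Perm.swap _ _ _)
        refine h6.merge.perm ?_
        have h7 : ([false] :: List.replicate q false :: List.replicate r true :: A :: L).Perm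
            (List.replicate q false :: List.replicate r true :: [false] :: A :: L) :=
          (List.Perm.swap _ _ _).trans (List.Perm.cons _ (List.Perm.swap _ _ _))
        exact h7.trans (List.Perm.swap _ _ _)
    have h8 : Good (t + A.length) ([b] :: A :: List.replicate r true ::
        List.replicate q false :: L) := by
      refine key.perm ?_
      have e : (List.replicate r true :: List.replicate q false :: [b] :: A :: L) =
          [List.replicate r true, List.replicate q false] ++ ([[b], A] ++ L) := rfl
      have e' : ([b] :: A :: List.replicate r true :: List.replicate q false :: L) =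
          [[b], A] ++ ([List.replicate r true, List.replicate q false] ++ L) := rfl
      rw [e, e', ← List.append_assoc, ← List.append_assoc]
      exact List.Perm.append_right _ List.perm_append_comm
    have h9 := h8.split
    have h10 : Good (t + A.length + 1) (List.replicate r true :: List.replicate q false ::
        (b :: A) :: L) := by
      refine h9.perm ?_
      have h11 : (([b] ++ A) :: List.replicate r true :: List.replicate q false :: L).Perm
          (List.replicate r true :: ([b] ++ A) :: List.replicate q false :: L) :=
        List.Perm.swap _ _ _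
      exact h11.trans (List.Perm.cons _ (List.Perm.swap _ _ _))
    exact h10.mono (by simp [add_assoc])

end Pool.Agent.MP7725
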