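import Pool.Agent.MP7725.Chain

/-!
# The cutting distance of an even binary word is at most logarithmic
-/

set_option autoImplicit false

namespace Pool.Agent.MP7725

/-! ### Reversal -/

theorem Shuf.reverse {X Y W : List Bool} (h : Shuf X Y W) :
    Shuf X.reverse Y.reverse W.reverse := by
  induction h with
  | nil => exact Shuf.nil
  | left a _ ih =>
    rw [List.reverse_cons, List.reverse_cons]
    have h1 := ih.append (Shuf.left a Shuf.nil)
    simpa using h1
  | right a _ ih =>
    rw [List.reverse_cons, List.reverse_cons]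
    have h1 := ih.append (Shuf.right a Shuf.nil)
    simpa using h1

theorem Que.reverse {W : List Bool} (h : Que [] W []) : Que [] W.reverse [] := by
  obtain ⟨X, Y, h1, h2⟩ := h
  simp only [List.nil_append, List.append_nil] at h2
  subst h2
  exact ⟨X.reverse, X.reverse, h1.reverse, by simp⟩

theorem Shuf.count {X Y W : List Bool} (h : Shuf X Y W) (b : Bool) :
    W.count b = X.count b + Y.count b := by
  induction h with
  | nil => rfl
  | left a _ ih =>
    rw [List.count_cons, List.count_cons, ih]
    omega
  | right a _ ih =>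
    rw [List.count_cons, List.count_cons, ih]
    omega

theorem Que.even {W : List Bool} (h : Que [] W []) (b : Bool) : Even (W.count b) := by
  obtain ⟨X, Y, h1, h2⟩ := h
  simp only [List.nil_append, List.append_nil] at h2
  subst h2
  exact ⟨X.count b, h1.count b⟩

/-! ### Two chains -/

theorem key_side {I J : ℕ} {P : ℕ → List Bool} {x : ℕ → ℕ} {Q : ℕ → List Bool} {y : ℕ → ℕ}
    (hP : IsChain I P x) (hQ : IsChain J Q y) (hIJ : I % 2 = J % 2) (hxy : x I < y J)
    (M₀ : List Bool) (e : Bool) (he : (pre Q J).count e ≤ M₀.count e) :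
    ∃ U M V : List Bool, pre P I ++ M₀ ++ (pre Q J).reverse = U ++ M ++ V ∧
      Que [] (U ++ V) [] ∧ ∀ b, (pre P I).count b ≤ (U ++ V).count b := by
  obtain ⟨N, P', x', h1, h2, h3, h4, h5, h6⟩ := IsChain.ext _ M₀ le_rfl I P x hP
  have hpre : pre P' I = pre P I := pre_congr h3
  have hx : x' I < y J := by
    rw [h4 I le_rfl]
    exact hxy
  have hcross : ∃ i j, I ≤ i ∧ i ≤ N ∧ j < J ∧ Cross P' x' Q y i j := by
    by_contra hno
    push Not at hno
    have h7 := one_side h2 h6 hQ h1 le_rfl hIJ hx hno e
    rw [h5, List.count_append, hpre] at h7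
    omega
  obtain ⟨i, j, hi1, hi2, hj, hpar, P'', Q'', c1, c2, c3, c4⟩ := hcross
  have hq := Cross.que h2 hQ hi2 (by omega : j ≤ J) hpar c3 c4
  have hU : (pre P' i ++ P'') <+: pre P I ++ M₀ := by
    rw [← h5]
    have e1 : (pre P' i ++ P'') <+: pre P' (i + 1) := by
      obtain ⟨w, hw⟩ := c1
      exact ⟨w, by rw [List.append_assoc, hw]; rfl⟩
    exact e1.trans (pre_le (by omega))
  have hV : (pre Q j ++ Q'') <+: pre Q J := by
    have e1 : (pre Q j ++ Q'') <+: pre Q (j + 1) := by
      obtain ⟨w, hw⟩ := c2
      exact ⟨w, by rw [List.append_assoc, hw]; rfl⟩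
    exact e1.trans (pre_le (by omega))
  obtain ⟨M₁, hM₁⟩ := hU
  obtain ⟨M₂, hM₂⟩ := hV
  refine ⟨pre P' i ++ P'', M₁ ++ M₂.reverse, (pre Q j ++ Q'').reverse, ?_, hq, fun b => ?_⟩
  · rw [← hM₁, ← hM₂, List.reverse_append (as := pre Q j ++ Q'')]
    simp only [List.append_assoc]
  · rw [List.count_append, List.count_append, ← hpre]
    have := (pre_le (P := P') hi1).sublist.count_le b
    omega

theorem key {I J : ℕ} {P : ℕ → List Bool} {x : ℕ → ℕ} {Q : ℕ → List Bool} {y : ℕ → ℕ}
    (hP : IsChain I P x) (hQ : IsChain J Q y) (hIJ : I % 2 = J % 2)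
    (M₀ : List Bool) (e : Bool) (he : (pre Q J).count e ≤ M₀.count e)
    (he' : (pre P I).count e ≤ M₀.count e) :
    ∃ U M V : List Bool, pre P I ++ M₀ ++ (pre Q J).reverse = U ++ M ++ V ∧
      Que [] (U ++ V) [] ∧ ((∀ b, (pre P I).count b ≤ (U ++ V).count b) ∨
        ∀ b, (pre Q J).count b ≤ (U ++ V).count b) := by
  rcases lt_trichotomy (x I) (y J) with h | h | h
  · obtain ⟨U, M, V, h1, h2, h3⟩ := key_side hP hQ hIJ h M₀ e he
    exact ⟨U, M, V, h1, h2, Or.inl h3⟩
  · refine ⟨pre P I, M₀, (pre Q J).reverse, rfl, ?_, Or.inl fun b => ?_⟩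
    · have h1 := hP.que I le_rfl
      have h2 := hQ.que_rev J le_rfl
      rw [h, ltr_eq_of_mod hIJ] at h1
      exact h1.trans h2
    · rw [List.count_append]
      omega
  · obtain ⟨U, M, V, h1, h2, h3⟩ := key_side hQ hP hIJ.symm h M₀.reverse e
      (by rw [List.count_reverse]; exact he')
    refine ⟨V.reverse, M.reverse, U.reverse, ?_, ?_, Or.inr fun b => ?_⟩
    · have h4 := congrArg List.reverse h1
      simpa [List.append_assoc] using h4
    · have h4 := h2.reverse
      rwa [List.reverse_append] at h4
    · have h4 := h3 b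
      rw [List.count_append] at h4 ⊢
      rw [List.count_reverse, List.count_reverse]
      omega

/-- Two chains which start at the two ends of a word give a shuffle square. -/
theorem finish {I J : ℕ} {P : ℕ → List Bool} {x : ℕ → ℕ} {Q : ℕ → List Bool} {y : ℕ → ℕ}
    (hP : IsChain I P x) (hQ : IsChain J Q y) (hIJ : I % 2 = J % 2) {W R S : List Bool}
    (hW : W = pre P I ++ R) (hW' : W.reverse = pre Q J ++ S) (e : Bool) (h0 : 0 < W.count e)
    (h1 : (pre P I).count e + 2 * (pre Q J).count e ≤ W.count e)
    (h2 : 2 * (pre P I).count e + (pre Q J).count e ≤ W.count e) {K : ℕ}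
    (hP' : ∃ b, W.count b ≤ K * (pre P I).count b)
    (hQ' : ∃ b, W.count b ≤ K * (pre Q J).count b) :
    ∃ U M V : List Bool, W = U ++ M ++ V ∧ Que [] (U ++ V) [] ∧
      ∃ b, W.count b ≤ K * (U ++ V).count b := by
  have hW2 : W = S.reverse ++ (pre Q J).reverse := by
    have h3 := congrArg List.reverse hW'
    rwa [List.reverse_reverse, List.reverse_append] at h3
  have hsplit : ∃ M₀, W = pre P I ++ M₀ ++ (pre Q J).reverse := by
    rcases List.append_eq_append_iff.mp (hW.symm.trans hW2) with ⟨w, h3, h4⟩ | ⟨w, h3, h4⟩
    · exact ⟨w, by rw [hW, h4, List.append_assoc]⟩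
    · exfalso
      have h5 : W.count e = (pre P I).count e + R.count e := by
        rw [hW, List.count_append]
      have h6 : (pre Q J).count e = w.count e + R.count e := by
        rw [← List.count_reverse, h4, List.count_append]
      omega
  obtain ⟨M₀, hM₀⟩ := hsplit
  have hcount : W.count e = (pre P I).count e + M₀.count e + (pre Q J).count e := by
    conv_lhs => rw [hM₀]
    rw [List.count_append, List.count_append, List.count_reverse]
  obtain ⟨U, M, V, h3, h4, h5⟩ := key hP hQ hIJ M₀ e (by omega) (by omega)
  refine ⟨U, M, V, hM₀.trans h3, h4, ?_⟩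
  rcases h5 with h5 | h5
  · obtain ⟨b, hb⟩ := hP'
    exact ⟨b, hb.trans (Nat.mul_le_mul_left K (h5 b))⟩
  · obtain ⟨b, hb⟩ := hQ'
    exact ⟨b, hb.trans (Nat.mul_le_mul_left K (h5 b))⟩

/-! ### The first block where the chain is long -/

theorem first_long (K : ℕ) (hK : 2 ≤ K) (W : List Bool) (hW : ∀ b, 0 < W.count b) :
    ∃ (I : ℕ) (P : ℕ → List Bool) (x : ℕ → ℕ) (R : List Bool), IsChain I P x ∧
      W = pre P I ++ R ∧ (∃ b, W.count b ≤ K * (pre P I).count b) ∧
      K * (pre P I).count (!ltr I) < 2 * W.count (!ltr I) := by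
  obtain ⟨N, P, x, h1, h2, h3, h4, h5, h6⟩ := IsChain.ext _ W le_rfl 0 (fun _ => [])
    (fun _ => 0) ⟨rfl, fun i hi => absurd hi (by omega), fun i hi => absurd hi (by omega)⟩
  have hpre0 : pre (fun _ : ℕ => ([] : List Bool)) 0 = [] := rfl
  rw [hpre0, List.nil_append] at h5
  have hex : ∃ i, ∃ b, W.count b ≤ K * (pre P i).count b := by
    refine ⟨N, ltr N, ?_⟩
    have h7 := h2.le_count N le_rfl
    have h8 : W.count (ltr N) = (pre P N).count (ltr N) + (P N).count (ltr N) := by
      rw [← h5]
      change (pre P N ++ P N).count _ = _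
      rw [List.count_append]
    have h9 : 2 * (pre P N).count (ltr N) ≤ K * (pre P N).count (ltr N) :=
      Nat.mul_le_mul_right _ hK
    omega
  classical
  have hN : Nat.find hex ≤ N := by
    apply Nat.find_min' hex
    refine ⟨ltr N, ?_⟩
    have h7 := h2.le_count N le_rfl
    have h8 : W.count (ltr N) = (pre P N).count (ltr N) + (P N).count (ltr N) := by
      rw [← h5]
      change (pre P N ++ P N).count _ = _
      rw [List.count_append]
    have h9 : 2 * (pre P N).count (ltr N) ≤ K * (pre P N).count (ltr N) :=
      Nat.mul_le_mul_right _ hK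
    omega
  have hspec := Nat.find_spec hex
  have hmin := fun i => Nat.find_min hex (m := i)
  generalize Nat.find hex = I at hN hspec hmin
  obtain ⟨R, hR⟩ := (pre_le (P := P) (by omega : I ≤ N + 1))
  refine ⟨I, P, x, R, h2.mono hN, by rw [hR, h5], hspec, ?_⟩
  cases I with
  | zero =>
    exfalso
    obtain ⟨b, hb⟩ := hspec
    have h7 : (pre P 0).count b = 0 := rfl
    rw [h7] at hb
    have := hW b
    omega
  | succ I =>
    have h7 := hmin I (by omega)
    push Not at h7
    have h8 := h7 (ltr I)
    have h9 := h2.le_count I (by omega)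
    have h10 := h2.cur I (by omega)
    rw [ltr_succ, Bool.not_not]
    change K * (pre P I ++ P I).count (ltr I) < _
    rw [List.count_append, h10, Nat.mul_add]
    have h11 : K * x I ≤ K * (pre P I).count (ltr I) := Nat.mul_le_mul_left K h9
    omega

/-- Prolonging a chain inside a word by one block. -/
theorem one_more {I : ℕ} {P : ℕ → List Bool} {x : ℕ → ℕ} (hP : IsChain I P x)
    {W R : List Bool} (hW : W = pre P I ++ R)
    (h : 2 * (pre P I).count (ltr I) ≤ W.count (ltr I)) :
    ∃ (P' : ℕ → List Bool) (x' : ℕ → ℕ) (R' : List Bool), IsChain (I + 1) P' x' ∧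
      W = pre P' (I + 1) ++ R' ∧ (∀ b, (pre P I).count b ≤ (pre P' (I + 1)).count b) ∧
      (pre P' (I + 1)).count (ltr I) ≤ 2 * (pre P I).count (ltr I) := by
  have h1 := hP.le_count I le_rfl
  have h2 : W.count (ltr I) = (pre P I).count (ltr I) + R.count (ltr I) := by
    rw [hW, List.count_append]
  obtain ⟨R₁, R₂, rfl, h3⟩ := exists_split_count (ltr I) R (x I) (by omega)
  obtain ⟨P₁, x₁, c1, c2, c3, c4, c5⟩ := hP.snoc R₁ h3
  have h4 : pre P₁ (I + 1) = pre P I ++ R₁ := by
    change pre P₁ I ++ P₁ I = _
    rw [c3, pre_congr (P := P) (P' := P₁) c2]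
  refine ⟨P₁, x₁, R₂, c1, by rw [h4, hW, List.append_assoc], fun b => ?_, ?_⟩
  · rw [h4, List.count_append]
    omega
  · rw [h4, List.count_append, h3]
    omega

/-! ### A long shuffle square -/

theorem find_square (W : List Bool) (hW : ∀ b, 27 ≤ W.count b) :
    ∃ X₁ X₂ U M V : List Bool, W = X₁ ++ X₂ ∧ X₂ ++ X₁ = U ++ M ++ V ∧ Que [] (U ++ V) [] ∧
      ∃ b, W.count b ≤ 40 * (U ++ V).count b := by
  have hrev : ∀ b, W.reverse.count b = W.count b := fun b => List.count_reverse
  obtain ⟨I, P, x, R, a1, a2, a3, a4⟩ := first_long 40 (by omega) W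
    (fun b => by have := hW b; omega)
  obtain ⟨J, Q, y, S, b1, b2, b3, b4⟩ := first_long 40 (by omega) W.reverse
    (fun b => by have := hW b; rw [hrev]; omega)
  simp only [hrev] at b3 b4
  have hWI := hW (ltr I)
  have hWI' := hW (!ltr I)
  by_cases hpar : I % 2 = J % 2
  · -- the same letter
    have hl : ltr I = ltr J := ltr_eq_of_mod hpar
    rw [← hl] at b4
    obtain ⟨U, M, V, h1, h2, h3⟩ := finish a1 b1 hpar a2 b2 (!ltr I) (by omega) (by omega)
      (by omega) a3 b3
    exact ⟨[], W, U, M, V, rfl, by rw [List.append_nil]; exact h1, h2, h3⟩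
  have hl : ltr J = !ltr I := ltr_eq_not (by omega)
  rw [hl, Bool.not_not] at b4
  by_cases hj : 80 * (pre P I).count (ltr I) ≤ 19 * W.count (ltr I)
  · obtain ⟨P', x', R', c1, c2, c3, c4⟩ := one_more a1 a2 (by omega)
    obtain ⟨U, M, V, h1, h2, h3⟩ := finish (K := 40) c1 b1 (by omega) c2 b2 (ltr I) (by omega)
      (by omega) (by omega)
      (by
        obtain ⟨b, hb⟩ := a3
        exact ⟨b, hb.trans (Nat.mul_le_mul_left 40 (c3 b))⟩) b3
    exact ⟨[], W, U, M, V, rfl, by rw [List.append_nil]; exact h1, h2, h3⟩
  -- the rotation into the middle of the first chain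
  push Not at hj
  clear hpar hl b1 b2 b3 b4 a3
  generalize hd : ltr I = d at hj a4 hWI hWI'
  obtain ⟨A₁, A₂, hA, hA1⟩ := exists_split_count d (pre P I) ((pre P I).count d / 2)
    (Nat.div_le_self _ _)
  have hAd : (pre P I).count d = A₁.count d + A₂.count d := by
    conv_lhs => rw [hA]
    rw [List.count_append]
  have hAd' : (pre P I).count (!d) = A₁.count (!d) + A₂.count (!d) := by
    conv_lhs => rw [hA]
    rw [List.count_append]
  rw [hA, List.append_assoc] at a2
  set W' : List Bool := A₂ ++ R ++ A₁ with hW'
  have hcnt : ∀ b, W'.count b = W.count b := by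
    intro b
    rw [a2, hW']
    simp only [List.count_append]
    omega
  have hrev' : ∀ b, W'.reverse.count b = W.count b := fun b => by rw [List.count_reverse, hcnt]
  obtain ⟨I', P', x', R', p1, p2, p3, p4⟩ := first_long 20 (by omega) W'
    (fun b => by have := hW b; rw [hcnt]; omega)
  obtain ⟨J', Q', y', S', q1, q2, q3, q4⟩ := first_long 20 (by omega) W'.reverse
    (fun b => by have := hW b; rw [hrev']; omega)
  simp only [hcnt] at p3 p4
  simp only [hrev'] at q3 q4
  have hA1' : 2 * W.count d ≤ 20 * A₁.count d := by omega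
  have hA2' : 2 * W.count d ≤ 20 * A₂.count d := by omega
  -- if the last letter is the rare one, the chain is short
  have hshortP : ltr I' = !d → 20 * (pre P' I').count (!d) < W.count (!d) := by
    intro h
    rw [h, Bool.not_not] at p4
    have h1 : pre P' I' ++ R' = A₂ ++ (R ++ A₁) := by
      rw [← p2, hW', List.append_assoc]
    rcases List.append_eq_append_iff.mp h1 with ⟨w, h2, h3⟩ | ⟨w, h2, h3⟩
    · have h4 : A₂.count (!d) = (pre P' I').count (!d) + w.count (!d) := by
        conv_lhs => rw [h2]
        rw [List.count_append]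
      omega
    · have h4 : (pre P' I').count d = A₂.count d + w.count d := by
        conv_lhs => rw [h2]
        rw [List.count_append]
      omega
  have hshortQ : ltr J' = !d → 20 * (pre Q' J').count (!d) < W.count (!d) := by
    intro h
    rw [h, Bool.not_not] at q4
    have h1 : pre Q' J' ++ S' = A₁.reverse ++ (A₂ ++ R).reverse := by
      rw [← q2, hW', List.reverse_append (as := A₂ ++ R)]
    rcases List.append_eq_append_iff.mp h1 with ⟨w, h2, h3⟩ | ⟨w, h2, h3⟩
    · have h4 : A₁.count (!d) = (pre Q' J').count (!d) + w.count (!d) := by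
        rw [← List.count_reverse, h2, List.count_append]
      omega
    · have h4 : (pre Q' J').count d = A₁.count d + w.count d := by
        conv_lhs => rw [h2]
        rw [List.count_append, List.count_reverse]
      omega
  have hres : ∃ U M V : List Bool, W' = U ++ M ++ V ∧ Que [] (U ++ V) [] ∧
      ∃ b, W'.count b ≤ 20 * (U ++ V).count b := by
    have hWJ := hW (ltr I')
    have hWJ' := hW (!ltr I')
    by_cases hpar' : I' % 2 = J' % 2
    · have hl : ltr I' = ltr J' := ltr_eq_of_mod hpar'
      rw [← hl] at q4
      refine finish p1 q1 hpar' p2 q2 (!ltr I') ?_ ?_ ?_ ?_ ?_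
      · rw [hcnt]; omega
      · rw [hcnt]; omega
      · rw [hcnt]; omega
      · simp only [hcnt]; exact p3
      · simp only [hcnt]; exact q3
    · have hl : ltr J' = !ltr I' := ltr_eq_not (by omega)
      rw [hl, Bool.not_not] at q4
      rcases Bool.eq_or_eq_not (ltr I') d with h | h
      · -- the second chain is short
        rw [h] at p4 q4
        have h1 := hshortQ (by rw [hl, h])
        have h2 : ltr J' = !d := by rw [hl, h]
        obtain ⟨Q₂, y₂, S₂, c1, c2, c3, c4⟩ := one_more q1 q2 (by
          rw [h2, hrev']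
          omega)
        rw [h2] at c4
        refine finish p1 c1 (by omega) p2 c2 (!d) ?_ ?_ ?_ ?_ ?_
        · rw [hcnt]; omega
        · rw [hcnt]; omega
        · rw [hcnt]; omega
        · simp only [hcnt]; exact p3
        · obtain ⟨b, hb⟩ := q3
          refine ⟨b, ?_⟩
          rw [hcnt]
          exact hb.trans (Nat.mul_le_mul_left 20 (c3 b))
      · -- the first chain is short
        rw [h, Bool.not_not] at p4
        rw [h] at q4
        have h1 := hshortP h
        obtain ⟨P₂, x₂, R₂, c1, c2, c3, c4⟩ := one_more p1 p2 (by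
          rw [h, hcnt]
          omega)
        rw [h] at c4
        refine finish c1 q1 (by omega) c2 q2 (!d) ?_ ?_ ?_ ?_ ?_
        · rw [hcnt]; omega
        · rw [hcnt]; omega
        · rw [hcnt]; omega
        · obtain ⟨b, hb⟩ := p3
          refine ⟨b, ?_⟩
          rw [hcnt]
          exact hb.trans (Nat.mul_le_mul_left 20 (c3 b))
        · simp only [hcnt]; exact q3
  obtain ⟨U, M, V, h1, h2, b, h3⟩ := hres
  refine ⟨A₁, A₂ ++ R, U, M, V, a2, h1, h2, b, ?_⟩
  rw [hcnt] at h3
  omega

/-! ### The induction -/

/-- Adding a shuffle square. -/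
theorem Good.add {t : ℕ} {U V M : List Bool} (h : Good t [M]) (hq : Que [] (U ++ V) []) :
    Good t [U, V, M] := by
  obtain ⟨Cs, h1, h2, B', h3, h4⟩ := h
  refine ⟨[U] :: [V] :: Cs, by simp [h1], ?_, U :: V :: B', ?_, ?_⟩
  · simp only [List.flatten_cons, List.length_append, List.length_cons, List.length_nil] at h2 ⊢
    omega
  · simp only [List.flatten_cons, List.cons_append, List.nil_append]
    exact (h3.cons _).cons _
  · simp only [List.flatten_cons]
    rw [← List.append_assoc]
    exact hq.trans h4

/-- One step of the induction. -/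
theorem Good.step {t : ℕ} {W X₁ X₂ U M V : List Bool} (h : Good t [M]) (h1 : W = X₁ ++ X₂)
    (h2 : X₂ ++ X₁ = U ++ M ++ V) (h3 : Que [] (U ++ V) []) : Good (t + 3) [W] := by
  have h4 := h.add h3
  -- glue `U` and `M`
  have h5 : Good t (U :: M :: [V]) := h4.perm (List.Perm.cons _ (List.Perm.swap _ _ _))
  have h6 : Good (t + 1 + 1) [(U ++ M) ++ V] := h5.split.split
  rw [← h2] at h6
  have h7 : Good (t + 1 + 1) (X₁ :: X₂ :: []) := h6.merge.perm (List.Perm.swap _ _ _)
  rw [h1]
  exact h7.split

/-- Words with few letters of one kind. -/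
theorem good_small {W : List Bool} (hW : EvenWord W) (b : Bool) (hb : W.count b < 27) :
    Good 53 [W] := by
  obtain ⟨A, h1, h2, h3⟩ := Good.extracts (t := 0) b (W.count b) W le_rfl
  have h4 : A.count b = 0 := by omega
  have h5 : A = List.replicate (A.count (!b)) (!b) := by
    rw [List.eq_replicate_iff]
    have h6 : ∀ a ∈ A, a = !b := by
      intro a ha
      rcases Bool.eq_or_eq_not a b with h7 | h7
      · subst h7
        exact absurd (List.count_pos_iff.mpr ha) (by omega)
      · exact h7
    refine ⟨?_, h6⟩
    exact (List.count_eq_length.mpr fun a ha => (h6 a ha).symm).symm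
  obtain ⟨p, hp⟩ := hW b
  obtain ⟨q, hq⟩ := hW (!b)
  have h6 : Good 0 [A, List.replicate (0 + W.count b) b] := by
    apply good_of_que
    simp only [List.flatten_cons, List.flatten_nil, List.append_nil]
    rw [h5, h2, hq, ← two_mul, zero_add, hp, ← two_mul]
    exact (que_even (!b) q).trans (que_even b p)
  have h7 := h3 0 [] h6
  have h8 := h7.split
  simp only [List.replicate_zero, List.append_nil] at h8
  exact h8.mono (by omega)

theorem good_of_potential (r : ℕ) : ∀ W : List Bool, EvenWord W →
    W.count true * W.count false * 39 ^ r ≤ 40 ^ r → Good (3 * r + 53) [W] := by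
  induction r with
  | zero =>
    intro W hW hp
    simp only [pow_zero, mul_one] at hp
    by_cases h1 : W.count true < 27
    · exact (good_small hW true h1).mono (by omega)
    · have h2 : W.count false < 27 := by
        by_contra h3
        have : 27 * 27 ≤ W.count true * W.count false :=
          Nat.mul_le_mul (by omega) (by omega)
        omega
      exact (good_small hW false h2).mono (by omega)
  | succ r ih =>
    intro W hW hp
    by_cases hsmall : ∃ b, W.count b < 27
    · obtain ⟨b, hb⟩ := hsmall
      exact (good_small hW b hb).mono (by omega)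
    · push Not at hsmall
      obtain ⟨X₁, X₂, U, M, V, h1, h2, h3, b, h4⟩ := find_square W hsmall
      have hcnt : ∀ c, W.count c = (U ++ V).count c + M.count c := by
        intro c
        have e1 : W.count c = (X₂ ++ X₁).count c := by
          rw [h1, List.count_append, List.count_append]
          omega
        rw [e1, h2]
        simp only [List.count_append]
        omega
      have hM : EvenWord M := by
        intro c
        have e1 := hW c
        rw [hcnt c] at e1
        exact (Nat.even_add.mp e1).mp (h3.even c)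
      have hM' : 40 * (M.count true * M.count false) ≤ 39 * (W.count true * W.count false) := by
        have e1 : M.count true ≤ W.count true := by
          rw [hcnt]
          omega
        have e2 : M.count false ≤ W.count false := by
          rw [hcnt]
          omega
        cases b with
        | true =>
          have e3 : 40 * M.count true ≤ 39 * W.count true := by
            have := hcnt true
            omega
          calc 40 * (M.count true * M.count false) = (40 * M.count true) * M.count false := by
                ring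
            _ ≤ (39 * W.count true) * W.count false := Nat.mul_le_mul e3 e2
            _ = 39 * (W.count true * W.count false) := by ring
        | false =>
          have e3 : 40 * M.count false ≤ 39 * W.count false := by
            have := hcnt false
            omega
          calc 40 * (M.count true * M.count false) = M.count true * (40 * M.count false) := by
                ring
            _ ≤ W.count true * (39 * W.count false) := Nat.mul_le_mul e1 e3
            _ = 39 * (W.count true * W.count false) := by ring
      have hpot : M.count true * M.count false * 39 ^ r ≤ 40 ^ r := by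
        have e1 : 40 * (M.count true * M.count false * 39 ^ r) ≤ 40 * 40 ^ r := by
          calc 40 * (M.count true * M.count false * 39 ^ r)
              = 40 * (M.count true * M.count false) * 39 ^ r := by ring
            _ ≤ 39 * (W.count true * W.count false) * 39 ^ r := Nat.mul_le_mul_right _ hM'
            _ = W.count true * W.count false * 39 ^ (r + 1) := by ring
            _ ≤ 40 ^ (r + 1) := hp
            _ = 40 * 40 ^ r := by ring
        exact Nat.le_of_mul_le_mul_left e1 (by norm_num)
      exact ((ih M hM hpot).step h1 h2 h3).mono (by omega)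

/-- The cutting distance of an even binary word is at most logarithmic. -/
theorem cutsSuffice_log (W : List Bool) (hW : EvenWord W) :
    CutsSuffice W (234 * Nat.log 2 W.length + 53) := by
  set L := Nat.log 2 W.length with hL
  have h1 : W.length < 2 ^ (L + 1) := Nat.lt_pow_succ_log_self (by norm_num) _
  have h2 : W.count true + W.count false = W.length := by
    have := List.length_eq_countP_add_countP (p := fun b => b == true) (l := W)
    rw [this]
    congr 1
    unfold List.count
    congr 1
    funext b
    cases b <;> rfl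
  have h3 : 4 * (W.count true * W.count false) ≤ 4 * 2 ^ (2 * L) := by
    have e1 : 4 * (W.count true * W.count false) ≤ W.length ^ 2 := by
      rw [← h2]
      nlinarith [sq_nonneg ((W.count true : ℤ) - W.count false)]
    have e2 : W.length ^ 2 ≤ (2 ^ (L + 1)) ^ 2 := Nat.pow_le_pow_left h1.le 2
    have e3 : ((2 : ℕ) ^ (L + 1)) ^ 2 = 4 * 2 ^ (2 * L) := by
      rw [← pow_mul, show (L + 1) * 2 = 2 * L + 2 by ring, pow_add]
      ring
    omega
  have h4 : W.count true * W.count false * 39 ^ (39 * (2 * L)) ≤ 40 ^ (39 * (2 * L)) := by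
    have e1 : W.count true * W.count false ≤ 2 ^ (2 * L) := by omega
    have e2 : (2 : ℕ) * 39 ^ 39 ≤ 40 ^ 39 := by norm_num
    calc W.count true * W.count false * 39 ^ (39 * (2 * L))
        ≤ 2 ^ (2 * L) * 39 ^ (39 * (2 * L)) := Nat.mul_le_mul_right _ e1
      _ = (2 * 39 ^ 39) ^ (2 * L) := by rw [mul_pow, ← pow_mul 39 39]
      _ ≤ (40 ^ 39) ^ (2 * L) := Nat.pow_le_pow_left e2 _
      _ = 40 ^ (39 * (2 * L)) := by rw [← pow_mul]
  have h5 := (good_of_potential (39 * (2 * L)) W hW h4).cutsSuffice
  have h6 : 3 * (39 * (2 * L)) + 53 = 234 * L + 53 := by ring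
  rwa [h6] at h5

end Pool.Agent.MP7725
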