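import Pool.Agent.MP7725.Basic

/-!
# Even binary words with a dominating cyclic run

If some cyclic run of an even binary word contains at least half of the occurrences of its letter,
then some rotation of the word is a shuffle square.
-/

namespace Pool.Agent.MP7725.MajorityRun

open Pool.Agent.MP7725 List

/-- If, up to rotation, the even word `W` starts with `z` letters `x` and the rest of it contains
at most `z` letters `x`, then its cutting distance is at most one. -/
theorem result (W : List Bool) (hW : EvenWord W) (x : Bool) (z : ℕ) (M : List Bool)
    (hr : W ~r (replicate z x ++ M)) (hz : M.count x ≤ z) :
    CutsSuffice W (cutDistance W) ∧ cutDistance W ≤ 1 := by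
  refine cutDistance_spec (RotSquare.cutsSuffice ?_)
  have he : EvenWord (replicate z x ++ M) := by
    intro a
    rw [← hr.perm.count_eq]
    exact hW a
  exact (rotSquare_of_majority x z M he hz).congr hr

end Pool.Agent.MP7725.MajorityRun
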