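import Pool.Agent.MP7725.Alt

/-!
# Words with six cyclic runs
-/

namespace Pool.Agent.MP7725

open List

/-- The cyclic word with blocks `a₁ b₁ a₂ b₂ a₃ b₃`, letters `x` and `!x` alternating. -/
lemma six_square (x : Bool) (a₁ a₂ a₃ b₁ b₂ b₃ q p : ℕ) (ha : a₁ + a₂ + a₃ = 2 * q)
    (hb : b₁ + b₂ + b₃ = 2 * p) (h1 : a₃ ≤ a₂) (h2 : a₂ ≤ q) (h3 : b₁ ≤ b₂) (h4 : b₂ ≤ p) :
    IsShuffleSquare (replicate a₁ x ++ (replicate b₁ (!x) ++ (replicate a₂ x ++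
      (replicate b₂ (!x) ++ (replicate a₃ x ++ replicate b₃ (!x)))))) := by
  obtain ⟨h, hh⟩ := Nat.exists_eq_add_of_le (show a₃ ≤ q by omega)
  obtain ⟨u, hu⟩ := Nat.exists_eq_add_of_le (show h ≤ a₁ by omega)
  obtain ⟨w, hw⟩ := Nat.exists_eq_add_of_le (show a₁ ≤ 2 * h by omega)
  obtain ⟨d, hd⟩ := Nat.exists_eq_add_of_le h3
  obtain ⟨e, he⟩ := Nat.exists_eq_add_of_le h4
  have key := square_four x
    (replicate u x ++ (replicate b₁ (!x) ++ replicate w x))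
    (replicate a₃ x ++ replicate b₁ (!x))
    (replicate d (!x) ++ (replicate a₃ x ++ replicate e (!x)))
    h a₃ b₁ (p - b₁)
    (by simp [count_replicate]; omega) (by simp [count_replicate]) (by simp [count_replicate])
    (by simp [count_replicate]) (by simp [count_replicate]) (by simp [count_replicate]; omega)
  have e1 : replicate a₁ x = replicate h x ++ replicate u x := by
    rw [replicate_append_replicate]; congr 1
  have e2 : replicate a₂ x = replicate w x ++ replicate a₃ x := by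
    rw [replicate_append_replicate]; congr 1; omega
  have e3 : replicate b₂ (!x) = replicate b₁ (!x) ++ replicate d (!x) := by
    rw [replicate_append_replicate]; congr 1
  have e4 : replicate b₃ (!x) = replicate e (!x) ++ replicate (p - b₁) (!x) := by
    rw [replicate_append_replicate]; congr 1; omega
  rw [e1, e2, e3, e4]
  simpa only [append_assoc] using key

/-- The linear word with six blocks. -/
def six (x : Bool) (a₁ b₁ a₂ b₂ a₃ b₃ : ℕ) : List Bool :=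
  replicate a₁ x ++ (replicate b₁ (!x) ++ (replicate a₂ x ++
      (replicate b₂ (!x) ++ (replicate a₃ x ++ replicate b₃ (!x)))))

lemma six_rot (x : Bool) (a₁ b₁ a₂ b₂ a₃ b₃ : ℕ) :
    six x a₁ b₁ a₂ b₂ a₃ b₃ ~r six (!x) b₁ a₂ b₂ a₃ b₃ a₁ := by
  unfold six
  rw [Bool.not_not]
  simpa only [append_assoc] using isRotated_append (l := replicate a₁ x)
    (l' := replicate b₁ (!x) ++ (replicate a₂ x ++
      (replicate b₂ (!x) ++ (replicate a₃ x ++ replicate b₃ (!x)))))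

lemma six_rot' (x : Bool) (a₁ b₁ a₂ b₂ a₃ b₃ : ℕ) :
    six x a₁ b₁ a₂ b₂ a₃ b₃ ~r six x a₂ b₂ a₃ b₃ a₁ b₁ := by
  have h1 := six_rot x a₁ b₁ a₂ b₂ a₃ b₃
  have h2 := six_rot (!x) b₁ a₂ b₂ a₃ b₃ a₁
  rw [Bool.not_not] at h2
  exact h1.trans h2

lemma six_count (x : Bool) (a₁ b₁ a₂ b₂ a₃ b₃ : ℕ) :
    (six x a₁ b₁ a₂ b₂ a₃ b₃).count x = a₁ + a₂ + a₃ := by
  simp [six, count_replicate]; omega

lemma six_count' (x : Bool) (a₁ b₁ a₂ b₂ a₃ b₃ : ℕ) :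
    (six x a₁ b₁ a₂ b₂ a₃ b₃).count (!x) = b₁ + b₂ + b₃ := by
  simp [six, count_replicate]; omega

lemma EvenWord.congr {W W' : List Bool} (h : W ~r W') (hW : EvenWord W) : EvenWord W' := by
  intro a
  rw [← h.perm.count_eq]
  exact hW a

lemma six_majority (x : Bool) (a₁ b₁ a₂ b₂ a₃ b₃ : ℕ) (he : EvenWord (six x a₁ b₁ a₂ b₂ a₃ b₃))
    (h : a₂ + a₃ ≤ a₁) : RotSquare (six x a₁ b₁ a₂ b₂ a₃ b₃) := by
  refine rotSquare_of_majority x a₁ _ he ?_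
  simp [count_replicate]
  exact h

/-- Six cyclic runs. -/
lemma six_rotSquare (x : Bool) (a₁ b₁ a₂ b₂ a₃ b₃ : ℕ)
    (he : EvenWord (six x a₁ b₁ a₂ b₂ a₃ b₃)) : RotSquare (six x a₁ b₁ a₂ b₂ a₃ b₃) := by
  have r1 := six_rot x a₁ b₁ a₂ b₂ a₃ b₃
  have r2 := six_rot' x a₁ b₁ a₂ b₂ a₃ b₃
  have r3 := r1.trans (six_rot' (!x) b₁ a₂ b₂ a₃ b₃ a₁)
  have r4 := r2.trans (six_rot' x a₂ b₂ a₃ b₃ a₁ b₁)
  have r5 := r3.trans (six_rot' (!x) b₂ a₃ b₃ a₁ b₁ a₂)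
  by_cases m1 : a₂ + a₃ ≤ a₁
  · exact six_majority x _ _ _ _ _ _ he m1
  by_cases m2 : a₃ + a₁ ≤ a₂
  · exact (six_majority x _ _ _ _ _ _ (he.congr r2) m2).congr r2
  by_cases m3 : a₁ + a₂ ≤ a₃
  · exact (six_majority x _ _ _ _ _ _ (he.congr r4) m3).congr r4
  by_cases m4 : b₂ + b₃ ≤ b₁
  · exact (six_majority (!x) _ _ _ _ _ _ (he.congr r1) m4).congr r1
  by_cases m5 : b₃ + b₁ ≤ b₂
  · exact (six_majority (!x) _ _ _ _ _ _ (he.congr r3) m5).congr r3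
  by_cases m6 : b₁ + b₂ ≤ b₃
  · exact (six_majority (!x) _ _ _ _ _ _ (he.congr r5) m6).congr r5
  have hx := he x
  have hy := he (!x)
  rw [six_count] at hx
  rw [six_count'] at hy
  obtain ⟨q, hq⟩ := hx
  obtain ⟨p, hp⟩ := hy
  have cases6 : (a₃ ≤ a₂ ∧ b₁ ≤ b₂) ∨ (a₁ ≤ a₃ ∧ b₂ ≤ b₃) ∨ (a₂ ≤ a₁ ∧ b₃ ≤ b₁) ∨
      (b₃ ≤ b₂ ∧ a₂ ≤ a₃) ∨ (b₁ ≤ b₃ ∧ a₃ ≤ a₁) ∨ (b₂ ≤ b₁ ∧ a₁ ≤ a₂) := by
    omega
  rcases cases6 with h | h | h | h | h | h
  · exact ⟨_, IsRotated.refl _, six_square x a₁ a₂ a₃ b₁ b₂ b₃ q p (by omega) (by omega)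
      (by omega) (by omega) (by omega) (by omega)⟩
  · exact ⟨_, r2, six_square x a₂ a₃ a₁ b₂ b₃ b₁ q p (by omega) (by omega)
      (by omega) (by omega) (by omega) (by omega)⟩
  · exact ⟨_, r4, six_square x a₃ a₁ a₂ b₃ b₁ b₂ q p (by omega) (by omega)
      (by omega) (by omega) (by omega) (by omega)⟩
  · exact ⟨_, r1, six_square (!x) b₁ b₂ b₃ a₂ a₃ a₁ p q (by omega) (by omega)
      (by omega) (by omega) (by omega) (by omega)⟩
  · exact ⟨_, r3, six_square (!x) b₂ b₃ b₁ a₃ a₁ a₂ p q (by omega) (by omega)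
      (by omega) (by omega) (by omega) (by omega)⟩
  · exact ⟨_, r5, six_square (!x) b₃ b₁ b₂ a₁ a₂ a₃ p q (by omega) (by omega)
      (by omega) (by omega) (by omega) (by omega)⟩

end Pool.Agent.MP7725
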